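import Mathlib

namespace Pool.Agent.Results.MP_ac28de_co.AutYF

/-- The two letters. -/
inductive L | one | two
  deriving DecidableEq

open L

/-- Words over `{1,2}`. -/
abbrev W := List L

/-- `Cov x y`: the word `y` covers `x` in the Young–Fibonacci lattice: `x` is obtained from `y` by
deleting the leftmost `1`, or by replacing a `2` preceded only by `2`s by `1`. -/
def Cov (x y : W) : Prop :=
  ∃ (k : ℕ) (w : W), (y = List.replicate k two ++ one :: w ∧ x = List.replicate k two ++ w) ∨
    (y = List.replicate k two ++ two :: w ∧ x = List.replicate k two ++ one :: w)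

/-- Saturated chains from the empty word, listed from the top element `x_n` down to `x_0 = ∅`. -/
inductive Chain : List W → Prop
  | root : Chain [[]]
  | step {x y : W} {l : List W} : Chain (x :: l) → Cov x y → Chain (y :: x :: l)

/-- Vertices of the tree. -/
abbrev V := {c : List W // Chain c}

theorem Chain.ne_nil {c : List W} (h : Chain c) : c ≠ [] := by cases h <;> simp

/-- The tree of upward paths: a chain is adjacent to the chain with its top element deleted. -/
def T : SimpleGraph V where
  Adj c d := c.1 = d.1.tail ∨ d.1 = c.1.tail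
  symm := ⟨fun _ _ h => h.symm⟩
  loopless := ⟨fun c h => by
    have h1 := c.2.ne_nil
    have h2 : c.1 = c.1.tail := by tauto
    have := congrArg List.length h2
    have := List.length_pos_iff.2 h1
    simp at *; omega⟩

/-- The involution exchanging a final `11` and a final `2` (other words are fixed). -/
def sig : W → W
  | [] => []
  | [one] => [one]
  | [two] => [one, one]
  | [one, one] => [two]
  | a :: b :: w => a :: sig (b :: w)

/-- The words `2^k 1`. -/
def Special (x : W) : Prop := ∃ k, x = List.replicate k two ++ [one]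

open Classical in
/-- The bit applied to the children of a chain: the value of `ε` at the longest initial part of the
chain whose top element is of the form `2^k 1` (`false` if there is none). -/
noncomputable def bit (ε : List W → Bool) : List W → Bool
  | [] => false
  | x :: l => if Special x then ε (x :: l) else bit ε l

/-- The map on chains given by `ε`: `x_i` is replaced by `sig x_i` iff the bit of
`(x_0, …, x_{i-1})` is set. -/
noncomputable def act (ε : List W → Bool) : List W → List W
  | [] => []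
  | y :: l => (if bit ε l then sig y else y) :: act ε l

theorem cov_nil (x : W) : ¬ Cov x [] := by
  rintro ⟨k, w, ⟨h, -⟩ | ⟨h, -⟩⟩ <;> simp at h

theorem cov_one (x w : W) : Cov x (one :: w) ↔ x = w := by
  constructor
  · rintro ⟨k, u, ⟨h, rfl⟩ | ⟨h, rfl⟩⟩ <;> cases k <;> simp_all [List.replicate_succ]
  · rintro rfl; exact ⟨0, x, Or.inl ⟨rfl, rfl⟩⟩

theorem cov_two' (x z : W) : Cov x (two :: z) ↔ x = one :: z ∨ ∃ u, x = two :: u ∧ Cov u z := by
  constructor
  · rintro ⟨k, u, ⟨h, rfl⟩ | ⟨h, rfl⟩⟩
    · cases k with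
      | zero => simp at h
      | succ k =>
        simp only [List.replicate_succ, List.cons_append, List.cons.injEq, true_and] at h
        exact Or.inr ⟨_, rfl, k, u, Or.inl ⟨h, rfl⟩⟩
    · cases k with
      | zero => simp at h; simp [h]
      | succ k =>
        simp only [List.replicate_succ, List.cons_append, List.cons.injEq, true_and] at h
        exact Or.inr ⟨_, rfl, k, u, Or.inr ⟨h, rfl⟩⟩
  · rintro (rfl | ⟨u, rfl, k, w, ⟨rfl, rfl⟩ | ⟨rfl, rfl⟩⟩)
    · exact ⟨0, z, Or.inr ⟨rfl, rfl⟩⟩
    · exact ⟨k + 1, w, Or.inl ⟨rfl, rfl⟩⟩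
    · exact ⟨k + 1, w, Or.inr ⟨rfl, rfl⟩⟩

theorem cov_two : ∀ (x z : W), Cov x (two :: z) ↔ Cov z x
  | [], z => by simp [cov_two', cov_nil]
  | one :: w, z => by simp [cov_two', cov_one, eq_comm]
  | two :: w, z => by
    have := cov_two z w
    rw [this, cov_two']; simp
termination_by x z => x.length + z.length
decreasing_by simp; omega

def rk : W → ℕ
  | [] => 0
  | one :: w => rk w + 1
  | two :: w => rk w + 2

theorem rk_cov : ∀ (y x : W), Cov x y → rk y = rk x + 1
  | [], x, h => absurd h (cov_nil x)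
  | one :: w, x, h => by rw [(cov_one _ _).1 h]; rfl
  | two :: z, x, h => by
    rcases (cov_two' _ _).1 h with rfl | ⟨u, rfl, hu⟩
    · rfl
    · simp [rk, rk_cov z u hu]

theorem sig_two {z : W} (h : z ≠ []) : sig (two :: z) = two :: sig z := by
  cases z with
  | nil => simp at h
  | cons b w => simp [sig]

theorem sig_one {z : W} (h : z ≠ []) (h1 : z ≠ [one]) : sig (one :: z) = one :: sig z := by
  match z, h, h1 with
  | [one], _, h1 => simp at h1
  | [two], _, _ => simp [sig]
  | a :: b :: w, _, _ => simp [sig]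

theorem sig_ne_nil {z : W} (h : z ≠ []) : sig z ≠ [] := by
  match z, h with
  | [one], _ => simp [sig]
  | [two], _ => simp [sig]
  | [one, one], _ => simp [sig]
  | [one, two], _ => simp [sig]
  | two :: b :: w, _ => simp [sig]
  | one :: b :: c :: w, _ => simp [sig]

theorem sig_ne_one {z : W} (h : z ≠ [one]) : sig z ≠ [one] := by
  match z, h with
  | [], _ => simp [sig]
  | [one], h => simp at h
  | [two], _ => simp [sig]
  | [one, one], _ => simp [sig]
  | [one, two], _ => simp [sig]
  | two :: b :: w, _ => simp [sig]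
  | one :: b :: c :: w, _ => simp [sig, sig_ne_nil]

theorem sig_sig : ∀ x : W, sig (sig x) = x
  | [] => rfl
  | one :: z => by
    by_cases h : z = []
    · subst h; rfl
    by_cases h1 : z = [one]
    · subst h1; rfl
    rw [sig_one h h1, sig_one (sig_ne_nil h) (sig_ne_one h1), sig_sig z]
  | two :: z => by
    by_cases h : z = []
    · subst h; rfl
    rw [sig_two h, sig_two (sig_ne_nil h), sig_sig z]

theorem cov_sig : ∀ (y x : W), Cov x y → Cov (sig x) (sig y)
  | [], x, h => absurd h (cov_nil x)
  | one :: z, x, h => by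
    rw [(cov_one _ _).1 h]
    by_cases h0 : z = []
    · subst h0; simp [sig, cov_one]
    by_cases h1 : z = [one]
    · subst h1; simp [sig, cov_two, cov_one]
    rw [sig_one h0 h1, cov_one]
  | two :: z, x, h => by
    have hr := rk_cov _ _ h
    rw [cov_two] at h
    by_cases h0 : z = []
    · subst h0
      have : x = [one] := by
        rcases (cov_two' _ _).1 ((cov_two _ _).2 h) with h | ⟨u, _, hu⟩
        · exact h
        · exact absurd hu (cov_nil u)
      subst this; simp [sig, cov_one]
    rw [sig_two h0, cov_two]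
    exact cov_sig x z h
termination_by y => rk y
decreasing_by omega

theorem pair : ∀ (y x : W), Cov x y → Cov x (sig y) → sig y ≠ y →
    ∃ k, x = List.replicate k two ++ [one] ∧
      (y = List.replicate k two ++ [two] ∨ y = List.replicate k two ++ [one, one])
  | [], x, h, _, _ => absurd h (cov_nil x)
  | one :: z, x, h, h', hn => by
    rw [cov_one] at h
    subst h
    by_cases h0 : x = []
    · subst h0; simp [sig] at hn
    by_cases h1 : x = [one]
    · subst h1; exact ⟨0, rfl, Or.inr rfl⟩
    rw [sig_one h0 h1] at h' hn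
    rw [cov_one] at h'
    exact absurd (by rw [← h']) hn
  | two :: z, x, h, h', hn => by
    by_cases h0 : z = []
    · subst h0
      rcases (cov_two' _ _).1 h with h | ⟨u, _, hu⟩
      · exact ⟨0, h, Or.inl rfl⟩
      · exact absurd hu (cov_nil u)
    rw [sig_two h0] at h' hn
    have hn' : sig z ≠ z := fun e => hn (by rw [e])
    rcases (cov_two' _ _).1 h with rfl | ⟨u, rfl, hu⟩
    · rw [cov_two, cov_one] at h'; exact absurd h' hn'
    · rw [cov_two, cov_two] at h'
      obtain ⟨k, rfl, hk⟩ := pair z u hu h' hn'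
      refine ⟨k + 1, rfl, ?_⟩
      rcases hk with rfl | rfl
      · exact Or.inl rfl
      · exact Or.inr rfl

theorem sig_special : ∀ k, sig (List.replicate k two ++ [one]) = List.replicate k two ++ [one]
  | 0 => rfl
  | k + 1 => by
    rw [List.replicate_succ, List.cons_append, sig_two (by simp), sig_special k]

theorem sig_pair : ∀ k, sig (List.replicate k two ++ [two]) = List.replicate k two ++ [one, one]
  | 0 => rfl
  | k + 1 => by
    rw [List.replicate_succ, List.cons_append, sig_two (by simp), sig_pair k]; rfl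

/-- Isomorphism of the trees above two words, as a bisimulation. -/
def Sim (x y : W) : Prop := ∃ R : W → W → Prop, R x y ∧ ∀ a b, R a b →
  ∃ f : W → W, Set.BijOn f {c | Cov a c} {c | Cov b c} ∧ ∀ c, Cov a c → R c (f c)

theorem Sim.dest {x y : W} (h : Sim x y) :
    ∃ f : W → W, Set.BijOn f {c | Cov x c} {c | Cov y c} ∧ ∀ c, Cov x c → Sim c (f c) := by
  obtain ⟨R, h1, h2⟩ := h
  obtain ⟨f, hf, hR⟩ := h2 x y h1
  exact ⟨f, hf, fun c hc => ⟨R, hR c hc, h2⟩⟩

theorem ch_iff (x c : W) : Cov x c ↔ c = one :: x ∨ ∃ z, c = two :: z ∧ Cov z x := by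
  match c with
  | [] => simp [cov_nil]
  | one :: w => simp [cov_one, eq_comm]
  | two :: w => simp [cov_two]

theorem ex_down {z : W} (h : z ≠ []) : ∃ u, Cov u z := by
  match z, h with
  | one :: w, _ => exact ⟨w, (cov_one _ _).2 rfl⟩
  | two :: w, _ => exact ⟨one :: w, (cov_two' _ _).2 (Or.inl rfl)⟩

theorem ch_one (w c : W) (h : Cov (one :: w) c) : c = one :: one :: w ∨ c = two :: w := by
  rcases (ch_iff _ _).1 h with h | ⟨z, rfl, hz⟩
  · exact Or.inl h
  · rw [cov_one] at hz; rw [hz]; exact Or.inr rfl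

theorem three {z : W} (h : z ≠ []) : ∃ a b c, Cov (two :: z) a ∧ Cov (two :: z) b ∧
    Cov (two :: z) c ∧ a ≠ b ∧ a ≠ c ∧ b ≠ c := by
  obtain ⟨u, hu⟩ := ex_down h
  exact ⟨one :: two :: z, two :: one :: z, two :: two :: u, (cov_one _ _).2 rfl,
    by rw [cov_two, cov_two, cov_one], by rw [cov_two, cov_two, cov_two]; exact hu,
    by simp, by simp, by simp⟩

theorem not_sim21 {z w : W} (h : z ≠ []) : ¬ Sim (two :: z) (one :: w) := by
  intro hs
  obtain ⟨f, hf, -⟩ := hs.dest
  obtain ⟨a, b, c, ha, hb, hc, h1, h2, h3⟩ := three h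
  have g1 := fun e => h1 (hf.injOn ha hb e)
  have g2 := fun e => h2 (hf.injOn ha hc e)
  have g3 := fun e => h3 (hf.injOn hb hc e)
  rcases ch_one _ _ (hf.mapsTo ha) with e1 | e1 <;> rcases ch_one _ _ (hf.mapsTo hb) with e2 | e2 <;>
    rcases ch_one _ _ (hf.mapsTo hc) with e3 | e3 <;> simp_all

theorem not_sim12 {z w : W} (h : z ≠ []) : ¬ Sim (one :: w) (two :: z) := by
  intro hs
  obtain ⟨f, hf, -⟩ := hs.dest
  obtain ⟨a, b, c, ha, hb, hc, h1, h2, h3⟩ := three h
  obtain ⟨a', ha', rfl⟩ := hf.surjOn ha
  obtain ⟨b', hb', rfl⟩ := hf.surjOn hb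
  obtain ⟨c', hc', rfl⟩ := hf.surjOn hc
  rcases ch_one _ _ ha' with e1 | e1 <;> rcases ch_one _ _ hb' with e2 | e2 <;>
    rcases ch_one _ _ hc' with e3 | e3 <;> simp_all

theorem cov_ne_nil {x y : W} (h : Cov x y) : y ≠ [] := fun e => cov_nil x (e ▸ h)

theorem sim_two {z z' : W} (h : z ≠ []) (h' : z' ≠ []) (hs : Sim (two :: z) (two :: z')) :
    Sim z z' := by
  refine ⟨fun a b => a ≠ [] ∧ b ≠ [] ∧ Sim (two :: a) (two :: b), ⟨h, h', hs⟩, ?_⟩
  rintro a b ⟨ha, hb, hab⟩
  obtain ⟨f, hf, hS⟩ := hab.dest
  have key : ∀ c, Cov a c → ∃ d, f (two :: c) = two :: d ∧ Cov b d := by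
    intro c hc
    have hc' : Cov (two :: a) (two :: c) := by rw [cov_two, cov_two]; exact hc
    rcases (ch_iff _ _).1 (hf.mapsTo hc') with e | ⟨d, e, hd⟩
    · exact absurd (e ▸ hS _ hc') (not_sim21 (cov_ne_nil hc))
    · exact ⟨d, e, (cov_two _ _).1 hd⟩
  refine ⟨fun c => (f (two :: c)).tail, ⟨?_, ?_, ?_⟩, ?_⟩
  · intro c hc
    obtain ⟨d, e, hd⟩ := key c hc
    simpa [e] using hd
  · intro c hc c' hc' e
    obtain ⟨d, e1, -⟩ := key c hc
    obtain ⟨d', e2, -⟩ := key c' hc'
    simp only [e1, e2, List.tail_cons] at e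
    have := hf.injOn (x₁ := two :: c) (x₂ := two :: c')
      (show Cov _ _ by rw [cov_two, cov_two]; exact hc) (show Cov _ _ by rw [cov_two, cov_two]; exact hc')
      (by rw [e1, e2, e])
    simpa using this
  · intro d hd
    have hd' : Cov (two :: b) (two :: d) := by rw [cov_two, cov_two]; exact hd
    obtain ⟨c, hc, e⟩ := hf.surjOn hd'
    rcases (ch_iff _ _).1 hc with rfl | ⟨c', rfl, hc'⟩
    · exact absurd (e ▸ hS _ hc) (not_sim12 (cov_ne_nil hd))
    · exact ⟨c', (cov_two _ _).1 hc', by simp [e]⟩
  · intro c hc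
    obtain ⟨d, e, hd⟩ := key c hc
    have hc' : Cov (two :: a) (two :: c) := by rw [cov_two, cov_two]; exact hc
    refine ⟨cov_ne_nil hc, by simpa [e] using cov_ne_nil hd, ?_⟩
    have := hS _ hc'
    simpa [e] using this

theorem sim_one {z z' : W} (h : z ≠ []) (h' : z' ≠ []) (hs : Sim (one :: z) (one :: z')) :
    Sim z z' := by
  obtain ⟨f, hf, hS⟩ := hs.dest
  have hc : Cov (one :: z) (two :: z) := by rw [cov_two, cov_one]
  rcases ch_one _ _ (hf.mapsTo hc) with e | e
  · exact absurd (e ▸ hS _ hc) (not_sim21 h)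
  · exact sim_two h h' (e ▸ hS _ hc)

theorem rk0 {x : W} (h : rk x = 0) : x = [] := by
  match x, h with
  | [], _ => rfl
  | one :: w, h => simp [rk] at h
  | two :: w, h => simp [rk] at h

theorem rk1 {x : W} (h : rk x = 1) : x = [one] := by
  match x, h with
  | [], h => simp [rk] at h
  | one :: w, h => simp only [rk, Nat.add_eq_right] at h; rw [rk0 h]
  | two :: w, h => simp [rk] at h

theorem sim_eq : ∀ x y : W, rk x = rk y → Sim x y → y = x ∨ y = sig x
  | [], y, hr, _ => Or.inl (rk0 hr.symm)
  | a :: z, [], hr, _ => Or.inl (rk0 hr).symm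
  | one :: z, one :: z', hr, hs => by
    simp only [rk, Nat.add_right_cancel_iff] at hr
    by_cases h0 : z = []
    · subst h0; rw [rk0 hr.symm]; exact Or.inl rfl
    by_cases h1 : z = [one]
    · subst h1; rw [rk1 hr.symm]; exact Or.inl rfl
    have h0' : z' ≠ [] := fun e => h0 (rk0 (by rw [hr, e]; rfl))
    rw [sig_one h0 h1]
    rcases sim_eq z z' hr (sim_one h0 h0' hs) with e | e <;> simp [e]
  | two :: z, two :: z', hr, hs => by
    simp only [rk, Nat.add_right_cancel_iff] at hr
    by_cases h0 : z = []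
    · subst h0; rw [rk0 hr.symm]; exact Or.inl rfl
    have h0' : z' ≠ [] := fun e => h0 (rk0 (by rw [hr, e]; rfl))
    rw [sig_two h0]
    rcases sim_eq z z' hr (sim_two h0 h0' hs) with e | e <;> simp [e]
  | one :: z, two :: z', hr, hs => by
    by_cases h0 : z' = []
    · subst h0
      simp only [rk] at hr
      rw [rk1 (x := z) (by omega)]; exact Or.inr rfl
    exact absurd hs (not_sim12 h0)
  | two :: z, one :: z', hr, hs => by
    by_cases h0 : z = []
    · subst h0
      simp only [rk] at hr
      rw [rk1 (x := z') (by omega)]; exact Or.inr rfl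
    exact absurd hs (not_sim21 h0)

/-- `sig` to the power of a bit -/
def sb (b : Bool) (x : W) : W := if b then sig x else x

theorem act_cons (ε) (y : W) (l) : act ε (y :: l) = sb (bit ε l) y :: act ε l := rfl

theorem sb_sb (b : Bool) (x : W) : sb b (sb b x) = x := by cases b <;> simp [sb, sig_sig]

theorem sb_special (b : Bool) {x : W} (h : Special x) : sb b x = x := by
  obtain ⟨k, rfl⟩ := h
  cases b <;> simp only [sb, sig_special] <;> simp

theorem special_sb (b : Bool) (x : W) : Special (sb b x) ↔ Special x := by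
  constructor
  · intro h
    have := sb_special b h
    rw [sb_sb] at this
    rwa [this]
  · intro h; rwa [sb_special b h]

theorem cov_sb (b : Bool) {x y : W} (h : Cov x y) : Cov (sb b x) (sb b y) := by
  cases b
  · exact h
  · exact cov_sig _ _ h

theorem sb_top (ε) (x : W) (l) : sb (bit ε l) x = sb (bit ε (x :: l)) x := by
  by_cases h : Special x
  · rw [sb_special _ h, sb_special _ h]
  · simp [bit, h]

theorem act_chain (ε) {c : List W} (h : Chain c) : Chain (act ε c) := by
  induction h with
  | root => exact Chain.root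
  | step h1 h2 ih =>
    rw [act_cons, act_cons]
    refine Chain.step ih ?_
    rw [sb_top]
    exact cov_sb _ h2

theorem act_inj (ε) : ∀ c d : List W, act ε c = act ε d → c = d
  | [], [], _ => rfl
  | [], _ :: _, h => by simp [act] at h
  | _ :: _, [], h => by simp [act] at h
  | x :: l, y :: m, h => by
    rw [act_cons, act_cons, List.cons.injEq] at h
    have := act_inj ε l m h.2
    subst this
    have := congrArg (sb (bit ε l)) h.1
    rw [sb_sb, sb_sb] at this
    rw [this]

theorem act_surj (ε) {d : List W} (h : Chain d) : ∃ c, Chain c ∧ act ε c = d := by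
  induction h with
  | root => exact ⟨_, Chain.root, rfl⟩
  | @step x y l h1 h2 ih =>
    obtain ⟨c, hc, e⟩ := ih
    match c, hc, e with
    | [], hc, _ => exact absurd rfl hc.ne_nil
    | x' :: l', hc, e =>
      refine ⟨sb (bit ε (x' :: l')) y :: x' :: l', Chain.step hc ?_, by rw [act_cons, sb_sb, e]⟩
      rw [act_cons, List.cons.injEq, sb_top] at e
      have := cov_sb (bit ε (x' :: l')) h2
      rwa [← e.1, sb_sb] at this

theorem act_tail (ε) (c : List W) : (act ε c).tail = act ε c.tail := by cases c <;> rfl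

theorem bit_comp (ε ε') : ∀ l : List W,
    bit (fun d => xor (ε (act ε' d)) (ε' d)) l = xor (bit ε (act ε' l)) (bit ε' l)
  | [] => rfl
  | x :: l => by
    by_cases h : Special x
    · rw [act_cons]; simp only [bit, special_sb, h, if_true]; rfl
    · rw [act_cons]; simp only [bit, special_sb, h, if_false]; exact bit_comp ε ε' l

theorem act_comp (ε ε') : ∀ c : List W,
    act ε (act ε' c) = act (fun d => xor (ε (act ε' d)) (ε' d)) c
  | [] => rfl
  | x :: l => by
    rw [act_cons, act_cons, act_cons, act_comp ε ε' l, bit_comp]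
    congr 1
    cases bit ε (act ε' l) <;> cases bit ε' l <;> simp [sb, sig_sig]

theorem chain_cases {c : List W} (h : Chain c) :
    c = [[]] ∨ ∃ x y l, c = y :: x :: l ∧ Chain (x :: l) ∧ Cov x y := by
  cases h with
  | root => exact Or.inl rfl
  | step h1 h2 => exact Or.inr ⟨_, _, _, rfl, h1, h2⟩

theorem chain_rk {c : List W} (h : Chain c) : rk c.headI + 1 = c.length := by
  induction h with
  | root => rfl
  | step h1 h2 ih =>
    have := rk_cov _ _ h2
    simp only [List.headI_cons, List.length_cons] at *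
    omega

theorem adj_root {c : V} (h : T.Adj ⟨_, Chain.root⟩ c) : c.1 = [[one], []] := by
  rcases h with h | h
  · rcases chain_cases c.2 with e | ⟨x, y, l, e, h1, h2⟩
    · simp [e] at h
    · simp only [e, List.tail_cons, List.cons.injEq] at h
      obtain ⟨rfl, rfl⟩ := h
      rw [e, rk1 (x := y) (rk_cov _ _ h2)]
  · exact absurd h c.2.ne_nil

theorem aut_root (e : T ≃g T) : e ⟨_, Chain.root⟩ = ⟨_, Chain.root⟩ := by
  rcases chain_cases (e ⟨_, Chain.root⟩).2 with h | ⟨x, y, l, h, h1, h2⟩
  · exact Subtype.ext h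
  exfalso
  have hc : Chain ((one :: y) :: y :: x :: l) := Chain.step (Chain.step h1 h2) ((cov_one _ _).2 rfl)
  have a1 : T.Adj (e ⟨_, Chain.root⟩) ⟨_, h1⟩ := Or.inr (by simp [h])
  have a2 : T.Adj (e ⟨_, Chain.root⟩) ⟨_, hc⟩ := Or.inl (by simp [h])
  rw [← e.apply_symm_apply ⟨_, h1⟩, e.map_adj_iff] at a1
  rw [← e.apply_symm_apply ⟨_, hc⟩, e.map_adj_iff] at a2
  have := e.symm.injective (Subtype.ext ((adj_root a1).trans (adj_root a2).symm))
  have := congrArg (fun c : V => c.1.length) this
  simp at this

theorem aut_tail (e : T ≃g T) : ∀ (l : List W) (x y : W) (h1 : Chain (x :: l))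
    (h : Chain (y :: x :: l)), (e ⟨_, h⟩).1.tail = (e ⟨_, h1⟩).1
  | l, x, y, h1, h => by
    have a : T.Adj ⟨_, h1⟩ ⟨_, h⟩ := Or.inl rfl
    rcases e.map_adj_iff.2 a with a | a
    · exact a.symm
    exfalso
    rcases chain_cases h1 with e1 | ⟨x', y', l', e1, g1, g2⟩
    · have : (⟨_, h1⟩ : V) = ⟨_, Chain.root⟩ := Subtype.ext e1
      rw [this, aut_root] at a
      exact (e ⟨_, h⟩).2.ne_nil a
    · simp only [List.cons.injEq] at e1
      obtain ⟨rfl, rfl⟩ := e1
      rw [aut_tail e l' x' x g1 h1] at a
      have := congrArg (fun c : V => c.1.length) (e.injective (Subtype.ext a))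
      simp at this
      omega

theorem aut_len (e : T ≃g T) : ∀ (c : List W) (h : Chain c), (e ⟨c, h⟩).1.length = c.length := by
  intro c h
  induction h with
  | root => rw [aut_root]
  | step h1 h2 ih =>
    have := congrArg List.length (aut_tail e _ _ _ h1 (Chain.step h1 h2))
    have := List.length_pos_iff.2 (e ⟨_, Chain.step h1 h2⟩).2.ne_nil
    simp only [List.length_tail, List.length_cons] at *
    omega

theorem aut_child (e : T ≃g T) {x y : W} {l : List W} (h1 : Chain (x :: l)) (h2 : Cov x y) :
    ∃ y', (e ⟨_, Chain.step h1 h2⟩).1 = y' :: (e ⟨_, h1⟩).1 ∧ Cov (e ⟨_, h1⟩).1.headI y' := by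
  have t := aut_tail e _ _ _ h1 (Chain.step h1 h2)
  rcases chain_cases (e ⟨_, Chain.step h1 h2⟩).2 with g | ⟨a, b, m, g, g1, g2⟩
  · rw [g] at t; exact absurd t.symm (e ⟨_, h1⟩).2.ne_nil
  · rw [g] at t
    exact ⟨b, by rw [g, ← t]; rfl, by rw [← t]; exact g2⟩

theorem aut_sim (e : T ≃g T) (c : V) : Sim c.1.headI (e c).1.headI := by
  classical
  refine ⟨fun a b => ∃ c : V, a = c.1.headI ∧ b = (e c).1.headI, ⟨c, rfl, rfl⟩, ?_⟩
  rintro _ _ ⟨⟨c, hc⟩, rfl, rfl⟩
  match c, hc with
  | [], hc => exact absurd rfl hc.ne_nil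
  | x :: l, hc =>
    refine ⟨fun y => if h : Cov x y then (e ⟨_, Chain.step hc h⟩).1.headI else [], ⟨?_, ?_, ?_⟩, ?_⟩
    · intro y hy
      have hy' : Cov x y := hy
      obtain ⟨y', e1, e2⟩ := aut_child e hc hy'
      simpa [hy', e1] using e2
    · intro y hy z hz h
      have hy' : Cov x y := hy
      have hz' : Cov x z := hz
      obtain ⟨y', e1, -⟩ := aut_child e hc hy'
      obtain ⟨z', e2, -⟩ := aut_child e hc hz'
      simp only [dif_pos hy', dif_pos hz', e1, e2, List.headI_cons] at h
      have := e.injective (Subtype.ext (e1.trans (h ▸ e2.symm)))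
      simpa using this
    · intro y' hy'
      have hy : Cov (e ⟨_, hc⟩).1.headI y' := hy'
      obtain ⟨a, m, hm⟩ := List.exists_cons_of_ne_nil (e ⟨_, hc⟩).2.ne_nil
      have h1 : Chain (a :: m) := hm ▸ (e ⟨_, hc⟩).2
      rw [hm] at hy
      obtain ⟨y, e1, e2⟩ := aut_child e.symm h1 hy
      have e3 : e.symm ⟨_, h1⟩ = ⟨_, hc⟩ := by
        rw [show (⟨_, h1⟩ : V) = e ⟨_, hc⟩ from Subtype.ext hm.symm]; simp
      rw [e3] at e1 e2
      have e2' : Cov x y := e2
      refine ⟨y, e2', ?_⟩
      have : (⟨_, Chain.step hc e2'⟩ : V) = e.symm ⟨_, Chain.step h1 hy⟩ := Subtype.ext e1.symm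
      simp [e2', this]
    · intro y hy
      have hy' : Cov x y := hy
      exact ⟨⟨_, Chain.step hc hy'⟩, rfl, by simp [hy']⟩

theorem aut_head (e : T ≃g T) (c : V) :
    (e c).1.headI = c.1.headI ∨ (e c).1.headI = sig c.1.headI := by
  refine sim_eq _ _ ?_ (aut_sim e c)
  have := chain_rk c.2
  have := chain_rk (e c).2
  have := aut_len e c.1 c.2
  simp only [Subtype.coe_eta] at this
  omega

theorem pair_ne (k : ℕ) :
    List.replicate k two ++ [two] ≠ List.replicate k two ++ [one, one] := by simp

theorem cov_pair (k : ℕ) : Cov (List.replicate k two ++ [one]) (List.replicate k two ++ [two]) :=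
  ⟨k, [], Or.inr ⟨rfl, rfl⟩⟩

theorem aut_act (e : T ≃g T) : ∃ ε, ∀ c : V, (e c).1 = act ε c.1 := by
  classical
  let ε : List W → Bool := fun c => decide (∃ y, ∃ h : Chain (y :: c), (e ⟨_, h⟩).1.headI ≠ y)
  refine ⟨ε, ?_⟩
  rintro ⟨c, hc⟩
  induction hc with
  | root => rw [aut_root]; rfl
  | @step x y l h1 h2 ih =>
    obtain ⟨y', e1, e2⟩ := aut_child e h1 h2
    have hd := aut_head e ⟨_, Chain.step h1 h2⟩
    simp only [e1, List.headI_cons] at hd
    rw [e1, act_cons, ← ih]
    congr 1
    by_cases hf : sig y = y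
    · cases bit ε (x :: l) <;> rcases hd with hd | hd <;> simp [sb, hd, hf]
    by_cases hs : Special x
    · have hb : bit ε (x :: l) = ε (x :: l) := by simp [bit, hs]
      rw [hb]
      rcases hd with hd | hd
      · have : ε (x :: l) = false := by
          simp only [ε, decide_eq_false_iff_not]
          rintro ⟨z, hz, hne⟩
          rcases chain_cases hz with g | ⟨a, b, m, g, -, g2⟩
          · simp at g
          simp only [List.cons.injEq] at g
          obtain ⟨rfl, rfl, rfl⟩ := g
          obtain ⟨z', f1, -⟩ := aut_child e h1 g2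
          have hz' := aut_head e ⟨_, Chain.step h1 g2⟩
          simp only [f1, List.headI_cons] at hz' hne
          have hz2 : z' = sig z := hz'.resolve_left hne
          have s1 : ∀ w, Cov x w → Cov x (sig w) := fun w hw => by
            have := cov_sb true hw; rwa [sb_special _ hs] at this
          obtain ⟨k, k1, k2⟩ := pair y x h2 (s1 y h2) hf
          obtain ⟨k', k3, k4⟩ := pair z x g2 (s1 z g2) (hz2 ▸ hne)
          have kk : k' = k := by
            have := congrArg List.length (k1.symm.trans k3); simp at this; omega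
          subst kk
          have yz : y = z ∨ y = sig z := by
            rcases k2 with rfl | rfl <;> rcases k4 with rfl | rfl
            · exact Or.inl rfl
            · right; rw [← sig_pair, sig_sig]
            · right; rw [sig_pair]
            · exact Or.inl rfl
          rcases yz with rfl | yz
          · rw [f1] at e1; simp only [List.cons.injEq] at e1; exact hne (e1.1.trans hd)
          · have : (e ⟨_, Chain.step h1 h2⟩).1 = (e ⟨_, Chain.step h1 g2⟩).1 := by
              rw [e1, f1, hd, hz2, yz]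
            have := e.injective (Subtype.ext this)
            simp only [Subtype.mk.injEq, List.cons.injEq, and_true] at this
            exact hne (by rw [hz2, ← yz, this])
        simp [this, sb, hd]
      · have : ε (x :: l) = true := by
          simp only [ε, decide_eq_true_iff]
          exact ⟨y, Chain.step h1 h2, by simp [e1, hd, hf]⟩
        simp [this, sb, hd]
    · by_contra hne
      rw [ih, act_cons, List.headI_cons, sb_top] at e2
      have e3 := cov_sb (bit ε (x :: l)) e2
      rw [sb_sb] at e3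
      have : sb (bit ε (x :: l)) y' = sig y := by
        revert hne
        cases bit ε (x :: l) <;> rcases hd with hd | hd <;> simp [sb, hd]
      rw [this] at e3
      obtain ⟨k, k1, -⟩ := pair y x h2 e3 hf
      exact hs ⟨k, k1⟩

theorem result :
    (∀ ε : List W → Bool, ∃ e : T ≃g T, ∀ c : V, (e c).1 = act ε c.1) ∧
    (∀ e : T ≃g T, ∃ ε : List W → Bool, ∀ c : V, (e c).1 = act ε c.1) ∧
    (∀ ε ε' : List W → Bool, (∀ c : V, act ε c.1 = act ε' c.1) ↔
      ∀ c : V, Special c.1.headI → ε c.1 = ε' c.1) ∧
    (∀ (ε ε' : List W → Bool) (c : V),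
      act ε (act ε' c.1) = act (fun d => xor (ε (act ε' d)) (ε' d)) c.1) := by
  refine ⟨fun ε => ?_, aut_act, fun ε ε' => ⟨?_, ?_⟩, fun ε ε' c => act_comp ε ε' c.1⟩
  · let f : V → V := fun c => ⟨act ε c.1, act_chain ε c.2⟩
    have hf : Function.Bijective f := by
      refine ⟨fun c d h => Subtype.ext (act_inj ε _ _ (congrArg Subtype.val h)), fun d => ?_⟩
      obtain ⟨c, hc, e⟩ := act_surj ε d.2
      exact ⟨⟨c, hc⟩, Subtype.ext e⟩
    refine ⟨⟨Equiv.ofBijective f hf, ?_⟩, fun c => rfl⟩
    intro a b
    show act ε a.1 = (act ε b.1).tail ∨ act ε b.1 = (act ε a.1).tail ↔ a.1 = b.1.tail ∨ b.1 = a.1.tail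
    rw [act_tail, act_tail]
    exact or_congr ⟨act_inj ε _ _, congrArg _⟩ ⟨act_inj ε _ _, congrArg _⟩
  · rintro h ⟨c, hc⟩ hs
    match c, hc, hs with
    | [], hc, _ => exact absurd rfl hc.ne_nil
    | x :: l, hc, hs =>
      have hs' : Special x := hs
      obtain ⟨k, rfl⟩ := hs'
      have := h ⟨_, Chain.step hc (cov_pair k)⟩
      rw [act_cons, act_cons ε', List.cons.injEq] at this
      have g := this.1
      simp only [bit, show Special (List.replicate k two ++ [one]) from ⟨k, rfl⟩, if_true] at g
      revert g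
      have := pair_ne k
      show _ → ε (_ :: l) = ε' (_ :: l)
      cases ε (_ :: l) <;> cases ε' (_ :: l) <;> simp [sb, sig_pair]
  · intro h ⟨c, hc⟩
    have hb : ∀ c, Chain c → bit ε c = bit ε' c := by
      intro c hc
      induction hc with
      | root =>
        have : ¬ Special [] := by rintro ⟨k, hk⟩; simp at hk
        simp [bit, this]
      | @step x y l h1 h2 ih =>
        by_cases hs : Special y
        · have := h ⟨_, Chain.step h1 h2⟩ hs
          rw [bit, if_pos hs, bit, if_pos hs]; exact this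
        · rw [bit, if_neg hs, ih]; conv_rhs => rw [bit, if_neg hs]
    induction hc with
    | root => rfl
    | step h1 h2 ih => rw [act_cons, act_cons ε', hb _ h1]; exact congrArg _ ih

end Pool.Agent.Results.MP_ac28de_co.AutYF
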